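import Mathlib

/-!
# Arithmetic intersection numbers of hermitian line bundles on `ℙ¹_ℤ ×_ℤ ℙ¹_ℤ`

A smooth hermitian metric on `𝒪(a, b)` is given by its potential, a function `pot` on pairs of non-zero
vectors of `ℂ²`: for a bihomogeneous form `s` of bidegree `(a, b)`, `-log ‖s‖ = pot - log |s|`.
The arithmetic intersection numbers are defined by the standard induction formula
`(L₁ ⋯ L_{k+1} | Z) = (L₂ ⋯ L_{k+1} | div(s|Z)) + ∫_{Z(ℂ)} -log ‖s‖ c₁(L₂) ⋯ c₁(L_{k+1})`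
with `s` the monomial section `X₀ ^ a Y₀ ^ b` of `L₁`.
-/

set_option autoImplicit false

open MeasureTheory Filter Topology
open scoped ContDiff

namespace Pool.Agent.H451R5.AI

/-- The second derivative of `u` at `p` in the real direction `w`. -/
noncomputable def D2 {E : Type*} [AddCommGroup E] [Module ℝ E] (u : E → ℝ) (p w : E) : ℝ :=
  deriv (deriv fun t : ℝ => u (p + t • w)) 0

/-- The Laplacian of a function on `ℂ`. -/
noncomputable def lap (u : ℂ → ℝ) (z : ℂ) : ℝ := D2 u z 1 + D2 u z Complex.I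

/-- The Levi form `∑ ∂²u/∂z_j∂z̄_k w_j w̄_k` of a function on `ℂ²`. -/
noncomputable def levi (u : ℂ × ℂ → ℝ) (p w : ℂ × ℂ) : ℝ := (D2 u p w + D2 u p (Complex.I • w)) / 4

/-- The determinant of the matrix `∂²u/∂z_j∂z̄_k`; its off-diagonal entry is recovered from the
Levi form by polarisation. -/
noncomputable def leviDet (u : ℂ × ℂ → ℝ) (p : ℂ × ℂ) : ℝ :=
  levi u p (1, 0) * levi u p (0, 1)
    - ((levi u p (1, 1) - levi u p (1, 0) - levi u p (0, 1)) / 2) ^ 2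
    - ((levi u p (1, Complex.I) - levi u p (1, 0) - levi u p (0, 1)) / 2) ^ 2

/-- The density with respect to Lebesgue measure of the `(2, 2)`-form `ω_u ∧ ω_v` on `ℂ²`, where
`ω_u = (i / π) ∂∂̄ u`. -/
noncomputable def wedge (u v : ℂ × ℂ → ℝ) (p : ℂ × ℂ) : ℝ :=
  4 / Real.pi ^ 2 * (leviDet (fun z => u z + v z) p - leviDet u p - leviDet v p)

/-- A hermitian line bundle on `ℙ¹_ℤ`: the line bundle `𝒪(deg)` with the smooth hermitian metric,
invariant under complex conjugation, for which a form `s` of degree `deg` has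
`-log ‖s‖ = pot - log |s|`. -/
structure HermP1 where
  /-- the degree -/
  deg : ℤ
  /-- the potential of the metric -/
  pot : ℂ × ℂ → ℝ
  smooth : ContDiffOn ℝ ∞ pot {0}ᶜ
  homog : ∀ (s : ℂ) (X : ℂ × ℂ), s ≠ 0 → X ≠ 0 → pot (s • X) = pot X + deg * Real.log ‖s‖
  conj : ∀ X, pot (star X) = pot X

/-- The arithmetic intersection number `deg (ĉ₁(M) ĉ₁(N))` on `ℙ¹_ℤ`: the section `X₀ ^ deg` of `M` has
divisor `deg` times the integral point `(0 : 1)`, where the arithmetic degree of `N` is `N.pot (0, 1)`. -/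
noncomputable def HermP1.inter (M N : HermP1) : ℝ :=
  M.deg * N.pot (0, 1) +
    ∫ z : ℂ, M.pot (1, z) * ((2 * Real.pi)⁻¹ * lap (fun z => N.pot (1, z)) z)

/-- A hermitian line bundle on `ℙ¹_ℤ × ℙ¹_ℤ`: the line bundle `𝒪(a, b)` with the smooth hermitian
metric, invariant under complex conjugation, for which a form `s` of bidegree `(a, b)` has
`-log ‖s‖ = pot - log |s|`. -/
structure HermP1P1 where
  /-- the degree in `X` -/
  a : ℤ
  /-- the degree in `Y` -/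
  b : ℤ
  /-- the potential of the metric -/
  pot : (ℂ × ℂ) × (ℂ × ℂ) → ℝ
  smooth : ContDiffOn ℝ ∞ pot ({0}ᶜ ×ˢ {0}ᶜ)
  homog : ∀ (s t : ℂ) (X Y : ℂ × ℂ), s ≠ 0 → t ≠ 0 → X ≠ 0 → Y ≠ 0 →
    pot (s • X, t • Y) = pot (X, Y) + a * Real.log ‖s‖ + b * Real.log ‖t‖
  conj : ∀ Z, pot (star Z) = pot Z

namespace HermP1P1

/-- The restriction to `{(0 : 1)} × ℙ¹_ℤ`. -/
noncomputable def restFst (L : HermP1P1) : HermP1 where
  deg := L.b
  pot := fun Y => L.pot ((0, 1), Y)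
  smooth := by
    refine L.smooth.comp (contDiff_const.prodMk contDiff_id).contDiffOn ?_
    intro Y hY
    refine ⟨?_, hY⟩
    simp [Prod.ext_iff]
  homog := fun s Y hs hY => by
    have := L.homog 1 s (0, 1) Y one_ne_zero hs (by simp [Prod.ext_iff]) hY
    simpa using this
  conj := fun Y => by
    have := L.conj ((0, 1), Y)
    have h : star (((0, 1), Y) : (ℂ × ℂ) × (ℂ × ℂ)) = ((0, 1), star Y) := by
      simp [Prod.ext_iff]
    rw [h] at this
    exact this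

/-- The restriction to `ℙ¹_ℤ × {(0 : 1)}`. -/
noncomputable def restSnd (L : HermP1P1) : HermP1 where
  deg := L.a
  pot := fun X => L.pot (X, (0, 1))
  smooth := by
    refine L.smooth.comp (contDiff_id.prodMk contDiff_const).contDiffOn ?_
    intro Y hY
    refine ⟨hY, ?_⟩
    simp [Prod.ext_iff]
  homog := fun s X hs hX => by
    have := L.homog s 1 X (0, 1) hs one_ne_zero hX (by simp [Prod.ext_iff])
    simpa using this
  conj := fun X => by
    have := L.conj (X, (0, 1))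
    have h : star ((X, (0, 1)) : (ℂ × ℂ) × (ℂ × ℂ)) = (star X, (0, 1)) := by
      simp [Prod.ext_iff]
    rw [h] at this
    exact this

/-- The restriction to the diagonal of `ℙ¹_ℤ × ℙ¹_ℤ`. -/
noncomputable def restDiag (L : HermP1P1) : HermP1 where
  deg := L.a + L.b
  pot := fun X => L.pot (X, X)
  smooth := by
    refine L.smooth.comp (contDiff_id.prodMk contDiff_id).contDiffOn ?_
    intro Y hY
    exact ⟨hY, hY⟩
  homog := fun s X hs hX => by
    rw [L.homog s s X X hs hs hX hX]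
    push_cast
    ring
  conj := fun X => L.conj (X, X)

/-- The arithmetic intersection number `deg (ĉ₁(A) ĉ₁(B) ĉ₁(C))` on `ℙ¹_ℤ × ℙ¹_ℤ`: the section
`X₀ ^ a Y₀ ^ b` of `A` has divisor `a {(0 : 1)} × ℙ¹_ℤ + b ℙ¹_ℤ × {(0 : 1)}`. -/
noncomputable def inter (A B C : HermP1P1) : ℝ :=
  A.a * B.restFst.inter C.restFst + A.b * B.restSnd.inter C.restSnd +
    ∫ p : ℂ × ℂ, A.pot ((1, p.1), (1, p.2)) *
      wedge (fun z => B.pot ((1, z.1), (1, z.2))) (fun z => C.pot ((1, z.1), (1, z.2))) p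

end HermP1P1

/-- The morphism `f : ((X₀ : X₁), (Y₀ : Y₁)) ↦ ((X₀² : X₁²), (Y₀³ : Y₁³))` of `ℙ¹_ℤ × ℙ¹_ℤ`, on
homogeneous coordinates. -/
def fHom (Z : (ℂ × ℂ) × (ℂ × ℂ)) : (ℂ × ℂ) × (ℂ × ℂ) :=
  ((Z.1.1 ^ 2, Z.1.2 ^ 2), (Z.2.1 ^ 3, Z.2.2 ^ 3))

/-- The pullback by the morphism `f`. -/
noncomputable def pull (L : HermP1P1) : HermP1P1 where
  a := 2 * L.a
  b := 3 * L.b
  pot := fun Z => L.pot (fHom Z)
  smooth := by
    refine L.smooth.comp (t := {0}ᶜ ×ˢ {0}ᶜ) ?_ ?_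
    · have : ContDiff ℝ ∞ fHom := by
        unfold fHom
        fun_prop
      exact this.contDiffOn
    · rintro ⟨X, Y⟩ ⟨hX, hY⟩
      refine ⟨?_, ?_⟩
      · simp only [Set.mem_compl_iff, Set.mem_singleton_iff, Prod.ext_iff, Prod.fst_zero,
          Prod.snd_zero, fHom, not_and_or] at hX ⊢
        rcases hX with h | h
        · left; exact pow_ne_zero 2 h
        · right; exact pow_ne_zero 2 h
      · simp only [Set.mem_compl_iff, Set.mem_singleton_iff, Prod.ext_iff, Prod.fst_zero,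
          Prod.snd_zero, fHom, not_and_or] at hY ⊢
        rcases hY with h | h
        · left; exact pow_ne_zero 3 h
        · right; exact pow_ne_zero 3 h
  homog := fun s t X Y hs ht hX hY => by
    have h1 : fHom (s • X, t • Y) = (s ^ 2 • (X.1 ^ 2, X.2 ^ 2), t ^ 3 • (Y.1 ^ 3, Y.2 ^ 3)) := by
      simp [fHom, Prod.ext_iff, mul_pow]
    have h2 : ((X.1 ^ 2, X.2 ^ 2) : ℂ × ℂ) ≠ 0 := by
      intro h
      rw [Prod.ext_iff] at h
      exact hX (Prod.ext (pow_eq_zero_iff two_ne_zero |>.1 h.1) (pow_eq_zero_iff two_ne_zero |>.1 h.2))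
    have h3 : ((Y.1 ^ 3, Y.2 ^ 3) : ℂ × ℂ) ≠ 0 := by
      intro h
      rw [Prod.ext_iff] at h
      exact hY (Prod.ext (pow_eq_zero_iff three_ne_zero |>.1 h.1)
        (pow_eq_zero_iff three_ne_zero |>.1 h.2))
    have h4 := L.homog (s ^ 2) (t ^ 3) _ _ (pow_ne_zero 2 hs) (pow_ne_zero 3 ht) h2 h3
    rw [h1, h4, norm_pow, norm_pow, Real.log_pow, Real.log_pow]
    have h5 : fHom (X, Y) = ((X.1 ^ 2, X.2 ^ 2), (Y.1 ^ 3, Y.2 ^ 3)) := rfl
    rw [h5]
    push_cast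
    ring
  conj := fun Z => by
    have h : fHom (star Z) = star (fHom Z) := by
      simp [fHom, Prod.ext_iff]
    rw [h, L.conj]

/-- `α₂(f)` computed with the hermitian line bundle `H`: the graph of `fⁿ` is isomorphic to
`ℙ¹_ℤ × ℙ¹_ℤ` by the first projection, and the second projection becomes `fⁿ`. -/
noncomputable def alpha2 (H : HermP1P1) : EReal :=
  limsup (fun n : ℕ => (((pull^[n] H).inter (pull^[n] H) H ^ ((n : ℝ)⁻¹) : ℝ) : EReal)) atTop

/-- `α₂(f; V)` for the diagonal `V`, computed with the hermitian line bundle `H`. -/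
noncomputable def alpha2Diag (H : HermP1P1) : EReal :=
  limsup (fun n : ℕ => (((pull^[n] H).restDiag.inter (pull^[n] H).restDiag ^ ((n : ℝ)⁻¹) : ℝ) :
    EReal)) atTop

/-- The orbit of the diagonal under `f` is Zariski dense: a polynomial in the homogeneous coordinates
`X₀, X₁, Y₀, Y₁` which vanishes on all `fⁿ(V)` is zero. -/
def DiagOrbitDense : Prop :=
  ∀ F : MvPolynomial (Fin 4) ℂ,
    (∀ n : ℕ, ∀ X : ℂ × ℂ, X ≠ 0 → MvPolynomial.eval
      ![(fHom^[n] (X, X)).1.1, (fHom^[n] (X, X)).1.2, (fHom^[n] (X, X)).2.1, (fHom^[n] (X, X)).2.2] F = 0) →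
    F = 0

/-- The two standard charts of `ℙ¹`. -/
def chart (i : Bool) (x : ℂ) : ℂ × ℂ := if i then (1, x) else (x, 1)

/-- A criterion for `L` to be arithmetically ample: the line bundle is ample, the curvature form is
positive, and the monomials, which are a `ℤ`-basis of the global sections, have sup norms `< 1`
(the same then holds for all positive tensor powers). -/
structure ArithAmple (L : HermP1P1) : Prop where
  a_pos : 0 < L.a
  b_pos : 0 < L.b
  curvature : ∀ (i j : Bool) (p w : ℂ × ℂ), w ≠ 0 →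
    0 < levi (fun z => L.pot (chart i z.1, chart j z.2)) p w
  small : ∃ c : ℝ, 0 < c ∧ ∀ i i' j j' : ℕ, ((i + i' : ℕ) : ℤ) = L.a → ((j + j' : ℕ) : ℤ) = L.b →
    ∀ X Y : ℂ × ℂ, X ≠ 0 → Y ≠ 0 → ‖X.1 ^ i * X.2 ^ i' * (Y.1 ^ j * Y.2 ^ j')‖ ≤
      Real.exp (L.pot (X, Y) - c)

/-- The potential of the Fubini-Study metric on `𝒪(1)`. -/
noncomputable def fs (X : ℂ × ℂ) : ℝ := Real.log (‖X.1‖ ^ 2 + ‖X.2‖ ^ 2) / 2

lemma fs_arg_pos {X : ℂ × ℂ} (hX : X ≠ 0) : 0 < ‖X.1‖ ^ 2 + ‖X.2‖ ^ 2 := by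
  by_contra h
  have h1 : ‖X.1‖ ^ 2 = 0 := by nlinarith [sq_nonneg ‖X.1‖, sq_nonneg ‖X.2‖]
  have h2 : ‖X.2‖ ^ 2 = 0 := by nlinarith [sq_nonneg ‖X.1‖, sq_nonneg ‖X.2‖]
  exact hX (Prod.ext (by simpa using h1) (by simpa using h2))

lemma fs_smooth : ContDiffOn ℝ ∞ fs {0}ᶜ := by
  unfold fs
  refine ContDiffOn.div_const (ContDiffOn.log ?_ ?_) 2
  · have h1 : ContDiff ℝ ∞ fun X : ℂ × ℂ => ‖X.1‖ ^ 2 := (contDiff_fst (𝕜 := ℝ) (E := ℂ) (F := ℂ)).norm_sq ℝ
    have h2 : ContDiff ℝ ∞ fun X : ℂ × ℂ => ‖X.2‖ ^ 2 := (contDiff_snd (𝕜 := ℝ) (E := ℂ) (F := ℂ)).norm_sq ℝ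
    exact (h1.add h2).contDiffOn
  · intro X hX
    exact (fs_arg_pos hX).ne'

lemma fs_homog (s : ℂ) (X : ℂ × ℂ) (hs : s ≠ 0) (hX : X ≠ 0) : fs (s • X) = fs X + Real.log ‖s‖ := by
  unfold fs
  have h1 : ‖(s • X).1‖ ^ 2 + ‖(s • X).2‖ ^ 2 = ‖s‖ ^ 2 * (‖X.1‖ ^ 2 + ‖X.2‖ ^ 2) := by
    simp [mul_pow]
    ring
  rw [h1, Real.log_mul (by positivity) (fs_arg_pos hX).ne', Real.log_pow]
  push_cast
  ring

lemma fs_conj (X : ℂ × ℂ) : fs (star X) = fs X := by
  simp [fs]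

/-- The hermitian line bundle `𝒪(1, 1)` on `ℙ¹_ℤ × ℙ¹_ℤ` with `e ^ (-c)` times the product of the
Fubini-Study metrics. -/
noncomputable def FS (c : ℝ) : HermP1P1 where
  a := 1
  b := 1
  pot := fun Z => fs Z.1 + fs Z.2 + c
  smooth := by
    refine ((fs_smooth.comp contDiff_fst.contDiffOn ?_).add
      (fs_smooth.comp contDiff_snd.contDiffOn ?_)).add contDiffOn_const
    · intro Z hZ; exact hZ.1
    · intro Z hZ; exact hZ.2
  homog := fun s t X Y hs ht hX hY => by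
    simp only
    rw [fs_homog s X hs hX, fs_homog t Y ht hY]
    push_cast
    ring
  conj := fun Z => by
    have h1 := fs_conj Z.1
    have h2 := fs_conj Z.2
    simp only [Prod.fst_star, Prod.snd_star] at *
    rw [h1, h2]

end Pool.Agent.H451R5.AI
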