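import Mathlib
import Pool.Agent.H451R5.AIDefs

/-! Task statements for MP_cefe55_nt (helper451). -/

set_option autoImplicit false

open MeasureTheory Filter Topology

namespace Pool.Agent.H451R5.AI

/-- the Fubini-Study potential of `z ^ m` -/
noncomputable def uu (m : ℕ) (z : ℂ) : ℝ := Real.log (1 + ‖z‖ ^ (2 * m)) / 2

/-- the density of its curvature -/
noncomputable def rho (m : ℕ) (z : ℂ) : ℝ :=
  (2 * Real.pi)⁻¹ * (2 * (m : ℝ) ^ 2 * ‖z‖ ^ (2 * m - 2) / (1 + ‖z‖ ^ (2 * m)) ^ 2)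

/-- KA: Zariski density -/
def TaskKA : Prop := DiagOrbitDense

/-- KB: ampleness of the Fubini-Study bundle -/
def TaskKB : Prop := ∀ c : ℝ, 0 < c → ArithAmple (FS c)

/-- KC: total mass (polar coordinates, antiderivative `m r^(2m) / (1 + r^(2m))`) -/
def TaskKC : Prop := ∀ m : ℕ, 1 ≤ m → Integrable (rho m) ∧ ∫ z, rho m z = m

/-- KD: self energy (antiderivative `-(m/2) (log (1 + r^(2m)) + 1) / (1 + r^(2m))`) -/
def TaskKD : Prop := ∀ m : ℕ, 1 ≤ m → Integrable (fun z => uu m z * rho m z) ∧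
  ∫ z, uu m z * rho m z = m / 2

/-- KE: elementary limit -/
def TaskKE : Prop := ∀ (B C : ℝ) (x : ℕ → ℝ), 1 ≤ B → 0 < C →
  (∀ n : ℕ, B ^ n ≤ x n ∧ x n ≤ C * B ^ n) →
  limsup (fun n : ℕ => ((x n ^ ((n : ℝ)⁻¹) : ℝ) : EReal)) atTop = (B : EReal)

/-- KF: mixed energies from KC, KD and the pointwise bound `uu a ≤ log 2 / 2 + (a / b) * uu b` -/
def TaskKF : Prop := TaskKC → TaskKD → ∀ a b : ℕ, 1 ≤ a → 1 ≤ b →
  Integrable (fun z => uu a z * rho b z) ∧ ∫ z, uu a z * rho b z ≤ (a + b) / 2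

/-- KG: the iterated pullback of the Fubini-Study bundle -/
def TaskKG : Prop := ∀ (c : ℝ) (n : ℕ), (pull^[n] (FS c)).a = 2 ^ n ∧ (pull^[n] (FS c)).b = 3 ^ n ∧
  ∀ Z : (ℂ × ℂ) × (ℂ × ℂ), (pull^[n] (FS c)).pot Z =
    fs (Z.1.1 ^ 2 ^ n, Z.1.2 ^ 2 ^ n) + fs (Z.2.1 ^ 3 ^ n, Z.2.2 ^ 3 ^ n) + c

end Pool.Agent.H451R5.AI
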