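import Mathlib
import Pool.Agent.H451R5.AIStmts

/-! Levi forms of separable potentials. -/

set_option autoImplicit false

open MeasureTheory Filter Topology

namespace Pool.Agent.H451R5.AI

/-- `‖z + t w‖²` as a polynomial in `t` -/
lemma normsq_line (z w : ℂ) (t : ℝ) :
    ‖z + t • w‖ ^ 2 = ‖z‖ ^ 2 + 2 * (z.re * w.re + z.im * w.im) * t + ‖w‖ ^ 2 * t ^ 2 := by
  rw [← Complex.normSq_eq_norm_sq, ← Complex.normSq_eq_norm_sq, ← Complex.normSq_eq_norm_sq]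
  simp only [Complex.normSq_apply, Complex.add_re, Complex.add_im, Complex.smul_re, Complex.smul_im,
    smul_eq_mul]
  ring

lemma uu_line (m : ℕ) (z w : ℂ) (t : ℝ) : uu m (z + t • w) =
    Real.log (1 + (‖z‖ ^ 2 + 2 * (z.re * w.re + z.im * w.im) * t + ‖w‖ ^ 2 * t ^ 2) ^ m) / 2 := by
  rw [← normsq_line, uu, ← pow_mul]

lemma qpos (z w : ℂ) (t : ℝ) :
    0 ≤ ‖z‖ ^ 2 + 2 * (z.re * w.re + z.im * w.im) * t + ‖w‖ ^ 2 * t ^ 2 := by
  rw [← normsq_line]; positivity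

lemma hasDeriv_q (A B C t : ℝ) :
    HasDerivAt (fun t : ℝ => A + 2 * B * t + C * t ^ 2) (2 * B + 2 * C * t) t := by
  have h1 : HasDerivAt (fun t : ℝ => 2 * B * t) (2 * B) t := by
    simpa using (hasDerivAt_id t).const_mul (2 * B)
  have h2 : HasDerivAt (fun t : ℝ => C * t ^ 2) (2 * C * t) t := by
    have := (hasDerivAt_pow 2 t).const_mul C
    refine this.congr_deriv ?_
    simp; ring
  exact ((h1.const_add A).add h2)

/-- first derivative along a line -/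
lemma uu_hasDeriv (m : ℕ) (z w : ℂ) (t : ℝ) :
    HasDerivAt (fun t : ℝ => uu m (z + t • w))
      ((m : ℝ) * (‖z‖ ^ 2 + 2 * (z.re * w.re + z.im * w.im) * t + ‖w‖ ^ 2 * t ^ 2) ^ (m - 1) *
        ((z.re * w.re + z.im * w.im) + ‖w‖ ^ 2 * t) /
        (1 + (‖z‖ ^ 2 + 2 * (z.re * w.re + z.im * w.im) * t + ‖w‖ ^ 2 * t ^ 2) ^ m)) t := by
  set A := ‖z‖ ^ 2
  set B := z.re * w.re + z.im * w.im
  set C := ‖w‖ ^ 2
  have hq := qpos z w t
  have h1 := ((hasDeriv_q A B C t).pow m)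
  have h2 : HasDerivAt (fun t : ℝ => 1 + (A + 2 * B * t + C * t ^ 2) ^ m)
      ((m : ℝ) * (A + 2 * B * t + C * t ^ 2) ^ (m - 1) * (2 * B + 2 * C * t)) t := by
    exact h1.const_add 1
  have h0 : (1 + (A + 2 * B * t + C * t ^ 2) ^ m) ≠ 0 := by positivity
  have h3 := (h2.log h0).div_const 2
  have h4 : (fun t : ℝ => uu m (z + t • w)) =
      fun t : ℝ => Real.log (1 + (A + 2 * B * t + C * t ^ 2) ^ m) / 2 := by
    funext t; exact uu_line m z w t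
  rw [h4]
  refine h3.congr_deriv ?_
  field_simp

/-- the second derivative along a line -/
noncomputable def sd (m : ℕ) (A B C : ℝ) : ℝ :=
  ((m : ℝ) * (((m - 1 : ℕ) : ℝ) * A ^ (m - 1 - 1) * (2 * B) * B + A ^ (m - 1) * C) * (1 + A ^ m) -
    (m : ℝ) * A ^ (m - 1) * B * ((m : ℝ) * A ^ (m - 1) * (2 * B))) / (1 + A ^ m) ^ 2

lemma uu_hasDeriv2 (m : ℕ) (z w : ℂ) :
    HasDerivAt (deriv fun t : ℝ => uu m (z + t • w))
      (sd m (‖z‖ ^ 2) (z.re * w.re + z.im * w.im) (‖w‖ ^ 2)) 0 := by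
  have h0 : (deriv fun t : ℝ => uu m (z + t • w)) = fun t : ℝ =>
      ((m : ℝ) * (‖z‖ ^ 2 + 2 * (z.re * w.re + z.im * w.im) * t + ‖w‖ ^ 2 * t ^ 2) ^ (m - 1) *
        ((z.re * w.re + z.im * w.im) + ‖w‖ ^ 2 * t) /
        (1 + (‖z‖ ^ 2 + 2 * (z.re * w.re + z.im * w.im) * t + ‖w‖ ^ 2 * t ^ 2) ^ m)) := by
    funext t; exact (uu_hasDeriv m z w t).deriv
  rw [h0]
  have hA : 0 ≤ ‖z‖ ^ 2 := by positivity
  generalize ‖z‖ ^ 2 = A at *
  generalize z.re * w.re + z.im * w.im = B at *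
  generalize ‖w‖ ^ 2 = C at *
  have h1 := hasDeriv_q A B C 0
  have h2 := (h1.pow (m - 1)).const_mul (m : ℝ)
  have h3 : HasDerivAt (fun t : ℝ => B + C * t) C 0 := by
    simpa using ((hasDerivAt_id (0 : ℝ)).const_mul C).const_add B
  have h4 := h2.mul h3
  have h5 := (h1.pow m).const_add 1
  have h6 : (1 + (A + 2 * B * 0 + C * 0 ^ 2) ^ m) ≠ 0 := by
    have : (0 : ℝ) ≤ (A + 2 * B * 0 + C * 0 ^ 2) := by simpa using hA
    positivity
  have h7 := h4.div h5 (by simpa using h6)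
  refine h7.congr_deriv ?_
  simp only [mul_zero, add_zero, ne_eq, OfNat.ofNat_ne_zero, not_false_eq_true, zero_pow, Pi.pow_apply, Pi.mul_apply, sd]
  ring

/-- `φ` is differentiable and its derivative has derivative `s` at `0` -/
structure TD (φ : ℝ → ℝ) (s : ℝ) : Prop where
  diff : Differentiable ℝ φ
  sec : HasDerivAt (deriv φ) s 0

lemma TD.add {φ ψ : ℝ → ℝ} {s t : ℝ} (h : TD φ s) (h' : TD ψ t) : TD (fun x => φ x + ψ x) (s + t) := by
  refine ⟨h.diff.add h'.diff, ?_⟩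
  have : deriv (fun x => φ x + ψ x) = fun x => deriv φ x + deriv ψ x := by
    funext x
    exact deriv_add (h.diff x) (h'.diff x)
  rw [this]
  exact h.sec.add h'.sec

lemma TD.const (c : ℝ) : TD (fun _ => c) 0 := by
  refine ⟨differentiable_const c, ?_⟩
  have : deriv (fun _ : ℝ => c) = fun _ => 0 := by funext x; simp
  rw [this]
  exact hasDerivAt_const _ _

lemma TD.d {φ : ℝ → ℝ} {s : ℝ} (h : TD φ s) : deriv (deriv φ) 0 = s := h.sec.deriv

/-- the second derivative of `uu m` at `z` in direction `w` -/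
noncomputable def SS (m : ℕ) (z w : ℂ) : ℝ := sd m (‖z‖ ^ 2) (z.re * w.re + z.im * w.im) (‖w‖ ^ 2)

lemma TD_uu (m : ℕ) (z w : ℂ) : TD (fun t : ℝ => uu m (z + t • w)) (SS m z w) :=
  ⟨fun t => (uu_hasDeriv m z w t).differentiableAt, uu_hasDeriv2 m z w⟩

lemma SS_add (m : ℕ) (hm : 1 ≤ m) (z w : ℂ) :
    SS m z w + SS m z (Complex.I * w) = 2 * Real.pi * rho m z * ‖w‖ ^ 2 := by
  obtain ⟨k, rfl⟩ : ∃ k, m = k + 1 := ⟨m - 1, by omega⟩
  have hnI : ‖Complex.I * w‖ ^ 2 = ‖w‖ ^ 2 := by simp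
  have hre : (Complex.I * w).re = - w.im := by simp
  have him : (Complex.I * w).im = w.re := by simp
  have hB : (z.re * w.re + z.im * w.im) ^ 2 + (z.re * -w.im + z.im * w.re) ^ 2 = ‖z‖ ^ 2 * ‖w‖ ^ 2 := by
    rw [← Complex.normSq_eq_norm_sq, ← Complex.normSq_eq_norm_sq, Complex.normSq_apply,
      Complex.normSq_apply]
    ring
  unfold SS sd rho
  rw [hnI, hre, him]
  have e1 : 2 * (k + 1) - 2 = 2 * k := by omega
  rw [e1, pow_mul, pow_mul]
  have hA : 0 ≤ ‖z‖ ^ 2 := by positivity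
  generalize ‖z‖ ^ 2 = A at *
  generalize z.re * w.re + z.im * w.im = B at *
  generalize z.re * -w.im + z.im * w.re = B' at *
  generalize ‖w‖ ^ 2 = C at *
  have hp : (1 + A ^ (k + 1)) ≠ 0 := by positivity
  have hpi : Real.pi ≠ 0 := Real.pi_ne_zero
  rw [← add_div]
  have e2 : 2 * Real.pi * ((2 * Real.pi)⁻¹ * (2 * ((k + 1 : ℕ) : ℝ) ^ 2 * A ^ k / (1 + A ^ (k + 1)) ^ 2)) * C
      = (2 * ((k + 1 : ℕ) : ℝ) ^ 2 * A ^ k * C) / (1 + A ^ (k + 1)) ^ 2 := by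
    field_simp
  rw [e2]
  congr 1
  simp only [Nat.add_sub_cancel]
  rcases Nat.eq_zero_or_pos k with hk | hk
  · subst hk
    simp only [zero_add, pow_zero, Nat.cast_one, Nat.cast_zero, pow_one]
    linear_combination (-2 : ℝ) * hB
  · obtain ⟨j, rfl⟩ : ∃ j, k = j + 1 := ⟨k - 1, by omega⟩
    simp only [Nat.add_sub_cancel]
    push_cast
    linear_combination (((j : ℝ) + 1 + 1) * (((j : ℝ) + 1) * A ^ j * 2) * (1 + A ^ (j + 1 + 1))
      - 2 * ((j : ℝ) + 1 + 1) ^ 2 * A ^ (j + 1) * A ^ (j + 1)) * hB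

/-- separable potentials -/
lemma D2_sep (α β : ℕ) (c : ℝ) (p w : ℂ × ℂ) :
    TD (fun t : ℝ => uu α (p + t • w).1 + uu β (p + t • w).2 + c) (SS α p.1 w.1 + SS β p.2 w.2) := by
  have h := ((TD_uu α p.1 w.1).add (TD_uu β p.2 w.2)).add (TD.const c)
  rw [add_zero] at h
  exact h

lemma D2_sep2 (α β α' β' : ℕ) (c c' : ℝ) (p w : ℂ × ℂ) :
    TD (fun t : ℝ => (uu α (p + t • w).1 + uu β (p + t • w).2 + c) +
      (uu α' (p + t • w).1 + uu β' (p + t • w).2 + c'))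
      ((SS α p.1 w.1 + SS β p.2 w.2) + (SS α' p.1 w.1 + SS β' p.2 w.2)) :=
  (D2_sep α β c p w).add (D2_sep α' β' c' p w)

lemma levi_sep (α β : ℕ) (hα : 1 ≤ α) (hβ : 1 ≤ β) (c : ℝ) (p w : ℂ × ℂ) :
    levi (fun z => uu α z.1 + uu β z.2 + c) p w =
      Real.pi / 2 * (rho α p.1 * ‖w.1‖ ^ 2 + rho β p.2 * ‖w.2‖ ^ 2) := by
  unfold levi D2
  rw [(D2_sep α β c p w).d, (D2_sep α β c p (Complex.I • w)).d]
  have h1 := SS_add α hα p.1 w.1
  have h2 := SS_add β hβ p.2 w.2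
  have e1 : (Complex.I • w).1 = Complex.I * w.1 := rfl
  have e2 : (Complex.I • w).2 = Complex.I * w.2 := rfl
  rw [e1, e2]
  linear_combination (1 / 4 : ℝ) * h1 + (1 / 4 : ℝ) * h2

lemma levi_sep2 (α β α' β' : ℕ) (hα : 1 ≤ α) (hβ : 1 ≤ β) (hα' : 1 ≤ α') (hβ' : 1 ≤ β')
    (c c' : ℝ) (p w : ℂ × ℂ) :
    levi (fun z => (uu α z.1 + uu β z.2 + c) + (uu α' z.1 + uu β' z.2 + c')) p w =
      Real.pi / 2 * ((rho α p.1 + rho α' p.1) * ‖w.1‖ ^ 2 + (rho β p.2 + rho β' p.2) * ‖w.2‖ ^ 2) := by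
  unfold levi D2
  rw [(D2_sep2 α β α' β' c c' p w).d, (D2_sep2 α β α' β' c c' p (Complex.I • w)).d]
  have h1 := SS_add α hα p.1 w.1
  have h2 := SS_add β hβ p.2 w.2
  have h3 := SS_add α' hα' p.1 w.1
  have h4 := SS_add β' hβ' p.2 w.2
  have e1 : (Complex.I • w).1 = Complex.I * w.1 := rfl
  have e2 : (Complex.I • w).2 = Complex.I * w.2 := rfl
  rw [e1, e2]
  linear_combination (1 / 4 : ℝ) * h1 + (1 / 4 : ℝ) * h2 + (1 / 4 : ℝ) * h3 + (1 / 4 : ℝ) * h4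

lemma wedge_sep (α β α' β' : ℕ) (hα : 1 ≤ α) (hβ : 1 ≤ β) (hα' : 1 ≤ α') (hβ' : 1 ≤ β')
    (c c' : ℝ) (p : ℂ × ℂ) :
    wedge (fun z => uu α z.1 + uu β z.2 + c) (fun z => uu α' z.1 + uu β' z.2 + c') p =
      rho α p.1 * rho β' p.2 + rho α' p.1 * rho β p.2 := by
  unfold wedge leviDet
  simp only [levi_sep α β hα hβ, levi_sep α' β' hα' hβ', levi_sep2 α β α' β' hα hβ hα' hβ']
  simp only [norm_zero, norm_one, Complex.norm_I]
  have hpi : Real.pi ≠ 0 := Real.pi_ne_zero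
  field_simp
  ring

lemma lap_sum (a b : ℕ) (ha : 1 ≤ a) (hb : 1 ≤ b) (c : ℝ) (z : ℂ) :
    (2 * Real.pi)⁻¹ * lap (fun z => uu a z + uu b z + c) z = rho a z + rho b z := by
  unfold lap D2
  have h1 := (((TD_uu a z 1).add (TD_uu b z 1)).add (TD.const c)).d
  have h2 := (((TD_uu a z Complex.I).add (TD_uu b z Complex.I)).add (TD.const c)).d
  rw [h1, h2]
  have h3 := SS_add a ha z 1
  have h4 := SS_add b hb z 1
  rw [mul_one, norm_one] at h3 h4
  have hpi : Real.pi ≠ 0 := Real.pi_ne_zero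
  have h5 : SS a z 1 + SS b z 1 + 0 + (SS a z Complex.I + SS b z Complex.I + 0) =
      2 * Real.pi * (rho a z + rho b z) := by linear_combination h3 + h4
  rw [h5, ← mul_assoc, inv_mul_cancel₀ (by positivity), one_mul]

lemma lap_one (a : ℕ) (ha : 1 ≤ a) (c : ℝ) (z : ℂ) :
    (2 * Real.pi)⁻¹ * lap (fun z => uu a z + c) z = rho a z := by
  unfold lap D2
  have h1 := ((TD_uu a z 1).add (TD.const c)).d
  have h2 := ((TD_uu a z Complex.I).add (TD.const c)).d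
  rw [h1, h2]
  have h3 := SS_add a ha z 1
  rw [mul_one, norm_one] at h3
  have hpi : Real.pi ≠ 0 := Real.pi_ne_zero
  have h5 : SS a z 1 + 0 + (SS a z Complex.I + 0) = 2 * Real.pi * rho a z := by linear_combination h3
  rw [h5, ← mul_assoc, inv_mul_cancel₀ (by positivity), one_mul]

end Pool.Agent.H451R5.AI
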