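import Pool.Agent.H451R5.AIStmts

set_option autoImplicit false

open MeasureTheory Filter Topology

namespace Pool.Agent.H451R5.AI.KF

theorem uu_nonneg (m : ℕ) (z : ℂ) : 0 ≤ uu m z := by
  unfold uu
  have h : (0 : ℝ) ≤ ‖z‖ ^ (2 * m) := by positivity
  have := Real.log_nonneg (by linarith : (1 : ℝ) ≤ 1 + ‖z‖ ^ (2 * m))
  linarith

theorem rho_nonneg (m : ℕ) (z : ℂ) : 0 ≤ rho m z := by
  unfold rho
  positivity

theorem uu_cont (m : ℕ) : Continuous (uu m) := by
  unfold uu
  refine Continuous.div_const (Continuous.log (by fun_prop) (fun z => ?_)) 2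
  have h : (0 : ℝ) ≤ ‖z‖ ^ (2 * m) := by positivity
  linarith

theorem rho_cont (m : ℕ) : Continuous (rho m) := by
  unfold rho
  refine Continuous.mul continuous_const (Continuous.div (by fun_prop) (by fun_prop) (fun z => ?_))
  have h : (0 : ℝ) ≤ ‖z‖ ^ (2 * m) := by positivity
  have : (0 : ℝ) < 1 + ‖z‖ ^ (2 * m) := by linarith
  exact (pow_pos this 2).ne'

theorem uu_le (a b : ℕ) (hb : 1 ≤ b) (z : ℂ) :
    uu a z ≤ Real.log 2 / 2 + (a / b : ℝ) * uu b z := by
  have hb' : (0 : ℝ) < b := by exact_mod_cast hb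
  have ha' : (0 : ℝ) ≤ a := Nat.cast_nonneg a
  rcases le_total ‖z‖ 1 with h | h
  · have h1 : ‖z‖ ^ (2 * a) ≤ 1 := pow_le_one₀ (norm_nonneg z) h
    have h2 : (0 : ℝ) ≤ ‖z‖ ^ (2 * a) := by positivity
    have h3 : Real.log (1 + ‖z‖ ^ (2 * a)) ≤ Real.log 2 :=
      Real.log_le_log (by linarith) (by linarith)
    have h4 : 0 ≤ (a / b : ℝ) * uu b z := mul_nonneg (by positivity) (uu_nonneg b z)
    unfold uu at h4 ⊢
    linarith
  · have hz : (0 : ℝ) < ‖z‖ := by linarith
    have h1 : (1 : ℝ) ≤ ‖z‖ ^ (2 * a) := one_le_pow₀ h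
    have h3 : Real.log (1 + ‖z‖ ^ (2 * a)) ≤ Real.log 2 + 2 * a * Real.log ‖z‖ := by
      have h5 : Real.log (1 + ‖z‖ ^ (2 * a)) ≤ Real.log (2 * ‖z‖ ^ (2 * a)) :=
        Real.log_le_log (by linarith) (by linarith)
      rw [Real.log_mul (by norm_num) (by positivity), Real.log_pow] at h5
      push_cast at h5
      linarith
    have h6 : 2 * b * Real.log ‖z‖ ≤ Real.log (1 + ‖z‖ ^ (2 * b)) := by
      have h5 : Real.log (‖z‖ ^ (2 * b)) ≤ Real.log (1 + ‖z‖ ^ (2 * b)) :=
        Real.log_le_log (by positivity) (by linarith)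
      rw [Real.log_pow] at h5
      push_cast at h5
      linarith
    have h7 : (a : ℝ) * Real.log ‖z‖ ≤ (a / b : ℝ) * uu b z := by
      unfold uu
      have h8 : (a / b : ℝ) * ((2 * b * Real.log ‖z‖) / 2) ≤
          (a / b : ℝ) * (Real.log (1 + ‖z‖ ^ (2 * b)) / 2) :=
        mul_le_mul_of_nonneg_left (by linarith) (by positivity)
      have h9 : (a / b : ℝ) * ((2 * b * Real.log ‖z‖) / 2) = a * Real.log ‖z‖ := by
        field_simp
      linarith
    have h10 : uu a z ≤ Real.log 2 / 2 + a * Real.log ‖z‖ := by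
      unfold uu
      linarith
    linarith

theorem taskKF : TaskKF := by
  intro hC hD a b ha hb
  obtain ⟨hi1, he1⟩ := hC b hb
  obtain ⟨hi2, he2⟩ := hD b hb
  have hb' : (0 : ℝ) < b := by exact_mod_cast hb
  have hdom : Integrable (fun z => Real.log 2 / 2 * rho b z + (a / b : ℝ) * (uu b z * rho b z)) :=
    (hi1.const_mul _).add (hi2.const_mul _)
  have hle : ∀ z, uu a z * rho b z ≤
      Real.log 2 / 2 * rho b z + (a / b : ℝ) * (uu b z * rho b z) := by
    intro z
    have h1 := mul_le_mul_of_nonneg_right (uu_le a b hb z) (rho_nonneg b z)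
    have h2 : (Real.log 2 / 2 + (a / b : ℝ) * uu b z) * rho b z =
      Real.log 2 / 2 * rho b z + (a / b : ℝ) * (uu b z * rho b z) := by ring
    linarith
  have hint : Integrable (fun z => uu a z * rho b z) := by
    refine hdom.mono ((uu_cont a).mul (rho_cont b)).aestronglyMeasurable
      (Filter.Eventually.of_forall fun z => ?_)
    have h0 : 0 ≤ uu a z * rho b z := mul_nonneg (uu_nonneg a z) (rho_nonneg b z)
    rw [Real.norm_of_nonneg h0]
    exact (hle z).trans (le_abs_self _)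
  refine ⟨hint, ?_⟩
  calc ∫ z, uu a z * rho b z
      ≤ ∫ z, (Real.log 2 / 2 * rho b z + (a / b : ℝ) * (uu b z * rho b z)) :=
        integral_mono hint hdom hle
    _ = Real.log 2 / 2 * b + (a / b : ℝ) * (b / 2) := by
        rw [integral_add (hi1.const_mul _) (hi2.const_mul _), integral_const_mul,
          integral_const_mul, he1, he2]
    _ = Real.log 2 / 2 * b + a / 2 := by field_simp
    _ ≤ (a + b) / 2 := by
        have h1 : Real.log 2 ≤ 1 := by
          have := Real.log_two_lt_d9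
          linarith
        nlinarith

end Pool.Agent.H451R5.AI.KF
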