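import Mathlib
import Pool.Agent.H451R5.AIStmts

set_option autoImplicit false

namespace Pool.Agent.H451R5.AI

open MvPolynomial

lemma KA_iter (n : ℕ) (Z : (ℂ × ℂ) × (ℂ × ℂ)) : fHom^[n] Z =
    ((Z.1.1 ^ 2 ^ n, Z.1.2 ^ 2 ^ n), (Z.2.1 ^ 3 ^ n, Z.2.2 ^ 3 ^ n)) := by
  induction n with
  | zero => simp
  | succ n ih =>
    rw [Function.iterate_succ_apply', ih]
    have e2 : ∀ z : ℂ, (z ^ 2 ^ n) ^ 2 = z ^ 2 ^ (n + 1) := fun z => by
      rw [← pow_mul, ← pow_succ]
    have e3 : ∀ z : ℂ, (z ^ 3 ^ n) ^ 3 = z ^ 3 ^ (n + 1) := fun z => by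
      rw [← pow_mul, ← pow_succ]
    simp only [fHom, e2, e3]

/-- exponents of the substituted monomial -/
noncomputable def KA_e (p q : ℕ) (d : Fin 4 →₀ ℕ) : Fin 2 →₀ ℕ :=
  Finsupp.single 0 (p * d 0 + q * d 2) + Finsupp.single 1 (p * d 1 + q * d 3)

lemma KA_arith {p q a c a' c' : ℕ} (hpq : Nat.Coprime p q) (hc : c < p) (hc' : c' < p)
    (h : p * a + q * c = p * a' + q * c') : a = a' ∧ c = c' := by
  have hp : 0 < p := by omega
  have h1 : q * c ≡ q * c' [MOD p] := by
    have h2 : (p * a + q * c) ≡ (p * a' + q * c') [MOD p] := by rw [h]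
    have h3 : (p * a + q * c) % p = (q * c) % p := by
      rw [add_comm, Nat.add_mul_mod_self_left]
    have h4 : (p * a' + q * c') % p = (q * c') % p := by
      rw [add_comm, Nat.add_mul_mod_self_left]
    unfold Nat.ModEq at h2 ⊢
    rw [h3, h4] at h2
    exact h2
  have h5 : c ≡ c' [MOD p] := Nat.ModEq.cancel_left_of_coprime hpq h1
  have h6 : c = c' := by
    unfold Nat.ModEq at h5
    rwa [Nat.mod_eq_of_lt hc, Nat.mod_eq_of_lt hc'] at h5
  subst h6
  have h7 : p * a = p * a' := by omega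
  exact ⟨Nat.eq_of_mul_eq_mul_left hp h7, rfl⟩

lemma KA_e_inj (p q : ℕ) (hpq : Nat.Coprime p q) (d d' : Fin 4 →₀ ℕ)
    (hd : ∀ i, d i < p) (hd' : ∀ i, d' i < p) (h : KA_e p q d = KA_e p q d') : d = d' := by
  have h0 := DFunLike.congr_fun h 0
  have h1 := DFunLike.congr_fun h 1
  simp [KA_e] at h0 h1
  obtain ⟨e0, e2⟩ := KA_arith hpq (hd 2) (hd' 2) h0
  obtain ⟨e1, e3⟩ := KA_arith hpq (hd 3) (hd' 3) h1
  ext i
  fin_cases i
  · exact e0
  · exact e1
  · exact e2
  · exact e3

theorem taskKA : TaskKA := by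
  intro F hF
  set n := F.totalDegree with hn
  have hlt : n < 2 ^ n := Nat.lt_two_pow_self
  set p := 2 ^ n with hp
  set q := 3 ^ n with hq
  have hpq : Nat.Coprime p q := by
    apply Nat.Coprime.pow
    norm_num
  let g : Fin 4 → MvPolynomial (Fin 2) ℂ := ![X 0 ^ p, X 1 ^ p, X 0 ^ q, X 1 ^ q]
  let G : MvPolynomial (Fin 2) ℂ := aeval g F
  have hGsum : G = ∑ d ∈ F.support, monomial (KA_e p q d) (F.coeff d) := by
    show aeval g F = _
    rw [aeval_def, eval₂_eq']
    refine Finset.sum_congr rfl (fun d _ => ?_)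
    rw [Fin.prod_univ_four]
    show algebraMap ℂ (MvPolynomial (Fin 2) ℂ) (coeff d F) *
      ((X 0 ^ p) ^ d 0 * (X 1 ^ p) ^ d 1 * (X 0 ^ q) ^ d 2 * (X 1 ^ q) ^ d 3) = _
    rw [algebraMap_eq, monomial_eq]
    congr 1
    rw [Finsupp.prod_fintype _ _ (fun i => pow_zero _), Fin.prod_univ_two]
    simp only [KA_e, Finsupp.add_apply, Finsupp.single_apply]
    simp only [if_true, if_neg (show ¬ ((1 : Fin 2) = 0) by decide),
      if_neg (show ¬ ((0 : Fin 2) = 1) by decide), add_zero, zero_add]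
    rw [pow_add, pow_add, ← pow_mul, ← pow_mul, ← pow_mul, ← pow_mul]
    ring
  have hG0 : G = 0 := by
    have h1 : G * X 0 = 0 := by
      apply MvPolynomial.funext
      intro x
      rw [map_mul, eval_X, map_zero]
      by_cases hx : x 0 = 0
      · rw [hx, mul_zero]
      · have h2 := hF n (x 0, x 1) (fun h => hx (congrArg Prod.fst h))
        rw [KA_iter] at h2
        have h3 : eval x G = eval ![x 0 ^ p, x 1 ^ p, x 0 ^ q, x 1 ^ q] F := by
          show eval x (aeval g F) = _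
          rw [aeval_def, eval₂_eq', map_sum, eval_eq' ![x 0 ^ p, x 1 ^ p, x 0 ^ q, x 1 ^ q] F]
          refine Finset.sum_congr rfl (fun d _ => ?_)
          rw [map_mul, map_prod, algebraMap_eq, eval_C]
          congr 1
          rw [Fin.prod_univ_four, Fin.prod_univ_four]
          simp [g]
        rw [h3]
        have h4 : eval ![x 0 ^ p, x 1 ^ p, x 0 ^ q, x 1 ^ q] F = 0 := h2
        rw [h4, zero_mul]
    rcases mul_eq_zero.1 h1 with h | h
    · exact h
    · exact absurd h (X_ne_zero 0)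
  ext d
  rw [coeff_zero]
  by_contra hne
  have hd : d ∈ F.support := mem_support_iff.2 hne
  have hbound : ∀ d' ∈ F.support, ∀ i, d' i < p := by
    intro d' hd' i
    have h1 := le_totalDegree hd'
    have h2 : d' i ≤ d'.sum (fun _ e => e) := by
      rw [Finsupp.sum_fintype _ _ (fun _ => rfl)]
      exact Finset.single_le_sum (f := fun j => d' j) (fun j _ => Nat.zero_le _) (Finset.mem_univ i)
    exact lt_of_le_of_lt (h2.trans h1) hlt
  have h1 : coeff (KA_e p q d) G = coeff d F := by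
    rw [hGsum, coeff_sum]
    rw [Finset.sum_eq_single d]
    · rw [coeff_monomial, if_pos rfl]
    · intro d' hd' hdd
      rw [coeff_monomial, if_neg]
      intro h
      exact hdd (KA_e_inj p q hpq d' d (hbound d' hd') (hbound d hd) h)
    · intro h; exact absurd hd h
  rw [hG0, coeff_zero] at h1
  exact hne h1.symm

end Pool.Agent.H451R5.AI
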