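import Mathlib
import Pool.Agent.H451R5.AILevi
import Pool.Agent.H451R5.TaskKA
import Pool.Agent.H451R5.KF
import Pool.Agent.H663R5.KD
import Pool.Agent.H174R3.KS.KE
import Pool.Agent.H471R3.KG

/-! Assembly. -/

set_option autoImplicit false

open MeasureTheory Filter Topology

namespace Pool.Agent.H451R5.AI

lemma fs_one_pow (m : ℕ) (z : ℂ) : fs ((1 : ℂ) ^ m, z ^ m) = uu m z := by
  unfold fs uu
  simp only [one_pow, norm_one, norm_pow]
  rw [← pow_mul, mul_comm m 2]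

lemma fs_pt (m : ℕ) (hm : m ≠ 0) : fs ((0 : ℂ) ^ m, (1 : ℂ) ^ m) = 0 := by
  unfold fs
  simp [hm]

/-- abbreviation for the iterated pullback -/
noncomputable def PP (n : ℕ) : HermP1P1 := pull^[n] (FS 1)

lemma PP_a (n : ℕ) : (PP n).a = 2 ^ n := (taskKG 1 n).1
lemma PP_b (n : ℕ) : (PP n).b = 3 ^ n := (taskKG 1 n).2.1
lemma PP_pot (n : ℕ) (Z : (ℂ × ℂ) × (ℂ × ℂ)) : (PP n).pot Z =
    fs (Z.1.1 ^ 2 ^ n, Z.1.2 ^ 2 ^ n) + fs (Z.2.1 ^ 3 ^ n, Z.2.2 ^ 3 ^ n) + 1 := (taskKG 1 n).2.2 Z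

lemma PP_zero : PP 0 = FS 1 := rfl

lemma two_ne (n : ℕ) : (2 ^ n : ℕ) ≠ 0 := by positivity
lemma three_ne (n : ℕ) : (3 ^ n : ℕ) ≠ 0 := by positivity
lemma two_ge (n : ℕ) : 1 ≤ (2 ^ n : ℕ) := Nat.one_le_two_pow
lemma three_ge (n : ℕ) : 1 ≤ (3 ^ n : ℕ) := Nat.one_le_pow _ _ (by norm_num)

lemma PP_aff (n : ℕ) (x y : ℂ) : (PP n).pot ((1, x), (1, y)) = uu (2 ^ n) x + uu (3 ^ n) y + 1 := by
  rw [PP_pot]
  simp only [fs_one_pow]

lemma PP_fst (n : ℕ) (y : ℂ) : (PP n).pot ((0, 1), (1, y)) = uu (3 ^ n) y + 1 := by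
  rw [PP_pot]
  simp only [fs_one_pow, fs_pt _ (two_ne n), zero_add]

lemma PP_snd (n : ℕ) (x : ℂ) : (PP n).pot ((1, x), (0, 1)) = uu (2 ^ n) x + 1 := by
  rw [PP_pot]
  simp only [fs_one_pow, fs_pt _ (three_ne n), add_zero]

lemma PP_corner (n : ℕ) : (PP n).pot ((0, 1), (0, 1)) = 1 := by
  rw [PP_pot]
  simp only [fs_pt _ (two_ne n), fs_pt _ (three_ne n), zero_add]

/-- the Faltings height of the image of the diagonal -/
lemma diag_eq (n : ℕ) : (PP n).restDiag.inter (PP n).restDiag =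
    ((2 : ℝ) ^ n + 3 ^ n) + ∫ z, (uu (2 ^ n) z + uu (3 ^ n) z + 1) * (rho (2 ^ n) z + rho (3 ^ n) z) := by
  unfold HermP1.inter HermP1P1.restDiag
  simp only [PP_corner, PP_aff, PP_a, PP_b, lap_sum _ _ (two_ge n) (three_ge n)]
  push_cast
  ring

lemma inter_eq (n : ℕ) : (PP n).inter (PP n) (PP 0) =
    (2 : ℝ) ^ n * (3 ^ n + ∫ z, (uu (3 ^ n) z + 1) * rho 1 z) +
    3 ^ n * (2 ^ n + ∫ z, (uu (2 ^ n) z + 1) * rho 1 z) +
    ∫ p : ℂ × ℂ, (uu (2 ^ n) p.1 + uu (3 ^ n) p.2 + 1) *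
      (rho (2 ^ n) p.1 * rho 1 p.2 + rho 1 p.1 * rho (3 ^ n) p.2) := by
  unfold HermP1P1.inter HermP1.inter HermP1P1.restFst HermP1P1.restSnd
  simp only [PP_corner, PP_aff, PP_fst, PP_snd, PP_a, PP_b]
  simp only [lap_one (3 ^ 0) (three_ge 0), lap_one (2 ^ 0) (two_ge 0),
    wedge_sep _ _ _ _ (two_ge n) (three_ge n) (two_ge 0) (three_ge 0)]
  simp only [pow_zero]
  push_cast
  ring

section
variable (hC : TaskKC)
include hC

lemma rho_int (m : ℕ) (hm : 1 ≤ m) : Integrable (rho m) := (hC m hm).1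
lemma rho_mass (m : ℕ) (hm : 1 ≤ m) : ∫ z, rho m z = m := (hC m hm).2
lemma ur_int (a b : ℕ) (ha : 1 ≤ a) (hb : 1 ≤ b) : Integrable (fun z => uu a z * rho b z) :=
  (KF.taskKF hC Pool.Agent.H663R5.KD.taskKD a b ha hb).1
lemma ur_le (a b : ℕ) (ha : 1 ≤ a) (hb : 1 ≤ b) : ∫ z, uu a z * rho b z ≤ (a + b) / 2 :=
  (KF.taskKF hC Pool.Agent.H663R5.KD.taskKD a b ha hb).2

omit hC in
lemma ur_nonneg (a b : ℕ) : 0 ≤ ∫ z, uu a z * rho b z :=
  integral_nonneg fun z => mul_nonneg (KF.uu_nonneg a z) (KF.rho_nonneg b z)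

lemma diag_int (a b : ℕ) (ha : 1 ≤ a) (hb : 1 ≤ b) :
    ∫ z, (uu a z + uu b z + 1) * (rho a z + rho b z) ≤ 7 / 2 * (a + b) := by
  have h : (fun z => (uu a z + uu b z + 1) * (rho a z + rho b z)) =
      fun z => (uu a z * rho a z + uu a z * rho b z) + (uu b z * rho a z + uu b z * rho b z) +
        (rho a z + rho b z) := by funext z; ring
  have i1 := ur_int hC a a ha ha
  have i2 := ur_int hC a b ha hb
  have i3 := ur_int hC b a hb ha
  have i4 := ur_int hC b b hb hb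
  have i5 := rho_int hC a ha
  have i6 := rho_int hC b hb
  have i12 : Integrable (fun z => uu a z * rho a z + uu a z * rho b z) := i1.add i2
  have i34 : Integrable (fun z => uu b z * rho a z + uu b z * rho b z) := i3.add i4
  have i14 : Integrable (fun z => (uu a z * rho a z + uu a z * rho b z) +
    (uu b z * rho a z + uu b z * rho b z)) := i12.add i34
  have i56 : Integrable (fun z => rho a z + rho b z) := i5.add i6
  rw [h, integral_add i14 i56, integral_add i12 i34, integral_add i1 i2, integral_add i3 i4,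
    integral_add i5 i6, rho_mass hC a ha, rho_mass hC b hb]
  have j1 := ur_le hC a a ha ha
  have j2 := ur_le hC a b ha hb
  have j3 := ur_le hC b a hb ha
  have j4 := ur_le hC b b hb hb
  linarith

omit hC in
lemma diag_int_nonneg (a b : ℕ) : 0 ≤ ∫ z, (uu a z + uu b z + 1) * (rho a z + rho b z) :=
  integral_nonneg fun z => mul_nonneg
    (by have := KF.uu_nonneg a z; have := KF.uu_nonneg b z; positivity)
    (add_nonneg (KF.rho_nonneg a z) (KF.rho_nonneg b z))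

lemma fst_int (a : ℕ) (ha : 1 ≤ a) : ∫ z, (uu a z + 1) * rho 1 z ≤ (a + 3) / 2 := by
  have h : (fun z => (uu a z + 1) * rho 1 z) = fun z => uu a z * rho 1 z + rho 1 z := by
    funext z; ring
  have i1 := ur_int hC a 1 ha le_rfl
  have i2 := rho_int hC 1 le_rfl
  rw [h, integral_add i1 i2, rho_mass hC 1 le_rfl]
  have j1 := ur_le hC a 1 ha le_rfl
  push_cast at *
  linarith

omit hC in
lemma fst_int_nonneg (a : ℕ) : 0 ≤ ∫ z, (uu a z + 1) * rho 1 z :=
  integral_nonneg fun z => mul_nonneg (by have := KF.uu_nonneg a z; positivity) (KF.rho_nonneg 1 z)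

omit hC in
lemma big_int_nonneg (a b : ℕ) : 0 ≤ ∫ p : ℂ × ℂ, (uu a p.1 + uu b p.2 + 1) *
      (rho a p.1 * rho 1 p.2 + rho 1 p.1 * rho b p.2) :=
  integral_nonneg fun p => mul_nonneg
    (by have := KF.uu_nonneg a p.1; have := KF.uu_nonneg b p.2; positivity)
    (add_nonneg (mul_nonneg (KF.rho_nonneg a _) (KF.rho_nonneg 1 _))
      (mul_nonneg (KF.rho_nonneg 1 _) (KF.rho_nonneg b _)))

lemma big_int (a b : ℕ) (ha : 1 ≤ a) (hb : 1 ≤ b) : ∫ p : ℂ × ℂ, (uu a p.1 + uu b p.2 + 1) *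
      (rho a p.1 * rho 1 p.2 + rho 1 p.1 * rho b p.2) ≤ a * b + 4 * a + 4 * b := by
  have h : (fun p : ℂ × ℂ => (uu a p.1 + uu b p.2 + 1) *
      (rho a p.1 * rho 1 p.2 + rho 1 p.1 * rho b p.2)) =
      fun p => ((uu a p.1 * rho a p.1) * rho 1 p.2 + rho a p.1 * (uu b p.2 * rho 1 p.2) +
        rho a p.1 * rho 1 p.2) +
        ((uu a p.1 * rho 1 p.1) * rho b p.2 + rho 1 p.1 * (uu b p.2 * rho b p.2) +
        rho 1 p.1 * rho b p.2) := by
    funext p; ring
  have a1 := ur_int hC a a ha ha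
  have a2 := ur_int hC b 1 hb le_rfl
  have a3 := ur_int hC a 1 ha le_rfl
  have a4 := ur_int hC b b hb hb
  have r1 := rho_int hC 1 le_rfl
  have ra := rho_int hC a ha
  have rb := rho_int hC b hb
  have m1 := rho_mass hC 1 le_rfl
  have ma := rho_mass hC a ha
  have mb := rho_mass hC b hb
  have i1 : Integrable (fun p : ℂ × ℂ => (uu a p.1 * rho a p.1) * rho 1 p.2) := a1.mul_prod r1
  have i2 : Integrable (fun p : ℂ × ℂ => rho a p.1 * (uu b p.2 * rho 1 p.2)) := ra.mul_prod a2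
  have i3 : Integrable (fun p : ℂ × ℂ => rho a p.1 * rho 1 p.2) := ra.mul_prod r1
  have i4 : Integrable (fun p : ℂ × ℂ => (uu a p.1 * rho 1 p.1) * rho b p.2) := a3.mul_prod rb
  have i5 : Integrable (fun p : ℂ × ℂ => rho 1 p.1 * (uu b p.2 * rho b p.2)) := r1.mul_prod a4
  have i6 : Integrable (fun p : ℂ × ℂ => rho 1 p.1 * rho b p.2) := r1.mul_prod rb
  have e1 : ∫ p : ℂ × ℂ, (uu a p.1 * rho a p.1) * rho 1 p.2 =
      (∫ z, uu a z * rho a z) * ∫ z, rho 1 z :=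
    integral_prod_mul (fun z => uu a z * rho a z) (rho 1)
  have e2 : ∫ p : ℂ × ℂ, rho a p.1 * (uu b p.2 * rho 1 p.2) =
      (∫ z, rho a z) * ∫ z, uu b z * rho 1 z :=
    integral_prod_mul (rho a) (fun z => uu b z * rho 1 z)
  have e3 : ∫ p : ℂ × ℂ, rho a p.1 * rho 1 p.2 = (∫ z, rho a z) * ∫ z, rho 1 z :=
    integral_prod_mul (rho a) (rho 1)
  have e4 : ∫ p : ℂ × ℂ, (uu a p.1 * rho 1 p.1) * rho b p.2 =
      (∫ z, uu a z * rho 1 z) * ∫ z, rho b z :=
    integral_prod_mul (fun z => uu a z * rho 1 z) (rho b)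
  have e5 : ∫ p : ℂ × ℂ, rho 1 p.1 * (uu b p.2 * rho b p.2) =
      (∫ z, rho 1 z) * ∫ z, uu b z * rho b z :=
    integral_prod_mul (rho 1) (fun z => uu b z * rho b z)
  have e6 : ∫ p : ℂ × ℂ, rho 1 p.1 * rho b p.2 = (∫ z, rho 1 z) * ∫ z, rho b z :=
    integral_prod_mul (rho 1) (rho b)
  have i12 : Integrable (fun p : ℂ × ℂ => (uu a p.1 * rho a p.1) * rho 1 p.2 +
    rho a p.1 * (uu b p.2 * rho 1 p.2)) := i1.add i2
  have i123 : Integrable (fun p : ℂ × ℂ => (uu a p.1 * rho a p.1) * rho 1 p.2 +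
    rho a p.1 * (uu b p.2 * rho 1 p.2) + rho a p.1 * rho 1 p.2) := i12.add i3
  have i45 : Integrable (fun p : ℂ × ℂ => (uu a p.1 * rho 1 p.1) * rho b p.2 +
    rho 1 p.1 * (uu b p.2 * rho b p.2)) := i4.add i5
  have i456 : Integrable (fun p : ℂ × ℂ => (uu a p.1 * rho 1 p.1) * rho b p.2 +
    rho 1 p.1 * (uu b p.2 * rho b p.2) + rho 1 p.1 * rho b p.2) := i45.add i6
  rw [h, integral_add i123 i456, integral_add i12 i3,
    integral_add i1 i2, integral_add i45 i6, integral_add i4 i5, e1, e2, e3, e4, e5, e6,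
    m1, ma, mb]
  have j1 := ur_le hC a a ha ha
  have j2 := ur_le hC b 1 hb le_rfl
  have j3 := ur_le hC a 1 ha le_rfl
  have j4 := ur_le hC b b hb hb
  push_cast at *
  have ha' : (0 : ℝ) ≤ a := by positivity
  have hb' : (0 : ℝ) ≤ b := by positivity
  have k2 := mul_le_mul_of_nonneg_left j2 ha'
  have k3 := mul_le_mul_of_nonneg_right j3 hb'
  nlinarith

theorem alpha2Diag_eq : alpha2Diag (FS 1) = 3 := by
  have h := Pool.Agent.H174R3.KS.taskKE 3 9 (fun n => (PP n).restDiag.inter (PP n).restDiag)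
    (by norm_num) (by norm_num) (fun n => by
      have h1 := diag_int hC (2 ^ n) (3 ^ n) (two_ge n) (three_ge n)
      have h2 := diag_int_nonneg (2 ^ n) (3 ^ n)
      have h3 : (2 : ℝ) ^ n ≤ 3 ^ n := pow_le_pow_left₀ (by norm_num) (by norm_num) n
      have h4 : (0 : ℝ) ≤ 2 ^ n := by positivity
      push_cast at h1
      simp only [diag_eq]
      constructor <;> linarith)
  exact h

theorem alpha2_eq : alpha2 (FS 1) = 6 := by
  have h := Pool.Agent.H174R3.KS.taskKE 6 20 (fun n => (PP n).inter (PP n) (PP 0))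
    (by norm_num) (by norm_num) (fun n => by
      have h1 := fst_int hC (3 ^ n) (three_ge n)
      have h2 := fst_int hC (2 ^ n) (two_ge n)
      have h3 := big_int hC (2 ^ n) (3 ^ n) (two_ge n) (three_ge n)
      have h1' := fst_int_nonneg (3 ^ n)
      have h2' := fst_int_nonneg (2 ^ n)
      have h3' := big_int_nonneg (2 ^ n) (3 ^ n)
      have e6 : (6 : ℝ) ^ n = 2 ^ n * 3 ^ n := by rw [← mul_pow]; norm_num
      have hA : (1 : ℝ) ≤ 2 ^ n := one_le_pow₀ (by norm_num)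
      have hB : (1 : ℝ) ≤ 3 ^ n := one_le_pow₀ (by norm_num)
      push_cast at h1 h2 h3
      simp only [inter_eq, e6]
      generalize (2 : ℝ) ^ n = A at *
      generalize (3 : ℝ) ^ n = B at *
      have k1 := mul_le_mul_of_nonneg_left h1 (by linarith : (0 : ℝ) ≤ A)
      have k2 := mul_le_mul_of_nonneg_left h2 (by linarith : (0 : ℝ) ≤ B)
      have k1' := mul_nonneg (by linarith : (0 : ℝ) ≤ A) h1'
      have k2' := mul_nonneg (by linarith : (0 : ℝ) ≤ B) h2'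
      have kAB : A ≤ A * B := by nlinarith
      have kBA : B ≤ A * B := by nlinarith
      constructor <;> nlinarith)
  exact h

end

end Pool.Agent.H451R5.AI
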